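import Pool.Agent.H44.DG.Targets

/-! EXT: extra moves of Builder in good states. -/

namespace Pool.Agent.H59.DG.EXT

open Pool.Agent.H44.DG

variable {V : Type}

/-- the rich faces of a picture keep their numbers under label moves -/
lemma lmove_R {L L' : LF} (h : LMove L L') {k : ℕ} {w : Cycle ℕ} (hk : (Tag.R k, w) ∈ L') :
    ∃ w', (Tag.R k, w') ∈ L := by
  cases h with
  | E u v l m G huv h =>
    simp only [Multiset.mem_cons, Prod.mk.injEq, reduceCtorEq, false_and, false_or] at hk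
    exact ⟨w, Multiset.mem_cons_of_mem hk⟩
  | R k' u v l m G huv h =>
    simp only [Multiset.mem_cons, Prod.mk.injEq, reduceCtorEq, false_and, false_or] at hk
    rcases hk with hk | hk
    · have := hk.1
      rw [Tag.R.injEq] at this
      subst this
      exact ⟨_, Multiset.mem_cons_self _ _⟩
    · exact ⟨w, Multiset.mem_cons_of_mem hk⟩

/-- the base of an open picture has no rich faces -/
lemma open_base : ∀ S ∈ openList, ∀ x ∈ S.2.2, ∀ k, x.1 ≠ Tag.R k := by
  intro S hS x hx k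
  simp only [openList, List.mem_cons, List.not_mem_nil, or_false] at hS
  rcases hS with rfl | rfl | rfl | rfl | rfl | rfl <;> simp at hx
  · rcases hx with rfl | rfl <;> simp
  · rcases hx with rfl | rfl <;> simp
  · subst hx; simp

lemma open_R {n : ℕ} {r : List ℕ} {base : List (Tag × List ℕ)} (hS : (n, r, base) ∈ openList) {k : ℕ}
    {w : Cycle ℕ} (hk : (Tag.R k, w) ∈ toLF ((.R 0, r) :: base)) : k = 0 := by
  simp only [toLF, Multiset.mem_coe, List.map_cons, List.mem_cons, List.mem_map] at hk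
  rcases hk with hk | ⟨x, hx, hxk⟩
  · simp only [Prod.mk.injEq, Tag.R.injEq] at hk
    exact hk.1
  · exact absurd (by simpa using congrArg Prod.fst hxk) (open_base _ hS x hx k)

/-- the labels of open pictures -/
lemma open_lab : ∀ S ∈ openList, (3 ≤ S.1) ∧ (∀ x ∈ toLF ((.R 0, S.2.1) :: S.2.2), ∀ i ∈ x.2, i < S.1) ∧
    (∀ x ∈ toLF ((.R 0, S.2.1) :: S.2.2), ∀ i, x.1 = Tag.T i → Tri3 x.2) := by
  intro S hS
  simp only [openList, List.mem_cons, List.not_mem_nil, or_false] at hS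
  rcases hS with rfl | rfl | rfl | rfl | rfl | rfl <;> simp [toLF]
  · exact ⟨3, 0, 4, by decide, by decide, by decide, rfl⟩
  · exact ⟨0, 3, 4, by decide, by decide, by decide, rfl⟩

/-- validity of a realisation inside a good state -/
lemma cok_of (hNOD : T_NOD) (hLOC : T_LOC) {c : Ctx V} {n : ℕ} {L : LF} (h3 : 3 ≤ n)
    (hnd : ((↑[c.f 0, c.f 1, c.f 2] : Cycle V).toMultiset + (((inner n).map c.f : Multiset V) + vs c L)).Nodup)
    (hlab : ∀ x ∈ L, ∀ i ∈ x.2, i < n) (htri : ∀ x ∈ L, ∀ i, x.1 = Tag.T i → Tri3 x.2)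
    (hT : ∀ i w, (Tag.T i, w) ∈ L → Reg (w.map c.f) (c.WS i) (c.FS i))
    (hr : ∀ k w, (Tag.R k, w) ∈ L → (∀ u ∈ c.FL k, ∀ v ∈ u, v ∈ c.WL k) ∧ ∀ v, InR (c.FI k) v → v ∈ c.WL k) :
    COK c n L where
  nodup := (hNOD V c n L h3 hnd hlab htri).1
  lab := hlab
  tri := htri
  tloc := fun i w hi => (hLOC V _ _ _ (hT i w hi)).1
  rloc := hr

/-- a content only touches its own vertices -/
lemma content_loc (hFLO : T_FLO) (hLOC : T_LOC) {fl : Region V} {W : Multiset V} {FI : Multiset (Region V)}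
    (h : Content fl W FI) : (∀ u ∈ fl, ∀ v ∈ u, v ∈ W) ∧ ∀ v, InR FI v → v ∈ W := by
  rcases h with ⟨h1, rfl⟩ | ⟨x, y, z, W', rfl, rfl, hB⟩
  · exact ⟨(hFLO V _ _ h1).2.2.2.2.1, fun v hv => absurd hv (inR_zero v)⟩
  · refine ⟨?_, ?_⟩
    · intro u hu v hv
      rw [Multiset.mem_singleton] at hu
      subst hu
      simp only [Cycle.mem_coe_iff, List.mem_cons, List.not_mem_nil, or_false] at hv
      simp only [Multiset.mem_cons]
      tauto
    · intro v hv
      have := (hLOC V _ _ _ hB).1.1 v hv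
      simp only [Cycle.mem_coe_iff, List.mem_cons, List.not_mem_nil, or_false] at this
      simp only [Multiset.mem_cons]
      tauto

lemma map_coe_cycle (f : ℕ → V) (l : List ℕ) : (↑l : Cycle ℕ).map f = ↑(l.map f) := rfl

/-- the case of a picture without rich faces -/
lemma comp_case (hADJ : T_ADJ) (hLMR : T_LMR) (hLMP : T_LMP) (hCAS : T_CAS) (hREP : T_REP) (hNOD : T_NOD)
    (hLOC : T_LOC) {n : ℕ} {L : LF} (hL : CompOK n L) (c : Ctx V)
    (hT : ∀ i w, (Tag.T i, w) ∈ L → Reg (w.map c.f) (c.WS i) (c.FS i))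
    (ih : ∀ i w, (Tag.T i, w) ∈ L → ((w.map c.f).toMultiset + c.WS i).Nodup →
      Stuck (c.FS i) ∨ ∃ F', LStep (c.FS i) F' ∧ Reg (w.map c.f) (c.WS i) F')
    (hnd : ((↑[c.f 0, c.f 1, c.f 2] : Cycle V).toMultiset + (((inner n).map c.f : Multiset V) + vs c L)).Nodup) :
    Stuck (real c L) ∨ ∃ F', LStep (real c L) F' ∧
      Reg ↑[c.f 0, c.f 1, c.f 2] (((inner n).map c.f : Multiset V) + vs c L) F' := by
  have hcok : COK c n L := cok_of hNOD hLOC hL.three hnd hL.lab hL.tri hT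
    (fun k w hk => absurd rfl (hL.noR _ hk k))
  have hnd' := (hNOD V c n L hL.three hnd hL.lab hL.tri).2.1
  by_cases h1 : ∃ L', LMove L L'
  · obtain ⟨L', hm⟩ := h1
    obtain ⟨hs, -, hvs⟩ := hLMR V c n L L' hcok hm
    obtain ⟨-, -, -, hTT, hC⟩ := hLMP L L' hm
    refine Or.inr ⟨_, hs, ?_⟩
    have := Reg.comp n L' (hC n hL) c (fun i w hi => hT i w ((hTT i w).1 hi))
    rwa [hvs] at this
  by_cases h2 : ∃ i w F', (Tag.T i, w) ∈ L ∧ LStep (c.FS i) F' ∧ Reg (w.map c.f) (c.WS i) F'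
  · obtain ⟨i, w, X, hi, hs, hX⟩ := h2
    obtain ⟨G, rfl⟩ := Multiset.exists_cons_of_mem hi
    obtain ⟨r1, r2, r3, r4⟩ := hREP V c i w G X hL.nd
    refine Or.inr ⟨X + real c G, ?_, ?_⟩
    · have hre : real c ((Tag.T i, w) ::ₘ G) = c.FS i + real c G := by simp [real, real1]
      rw [hre]
      refine hs.lift (hcok.tloc i w hi) ?_
      intro x hx hxW
      exact ((hADJ V c n _ hcok).2.2.2 _ G rfl x hxW).1 hx
    · have := Reg.comp n ((Tag.T i, w) ::ₘ G) hL { c with FS := Function.update c.FS i X } (by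
        intro j w' hj
        show Reg (w'.map c.f) (c.WS j) (Function.update c.FS i X j)
        rcases Multiset.mem_cons.1 hj with hj | hj
        · simp only [Prod.mk.injEq, Tag.T.injEq] at hj
          obtain ⟨rfl, rfl⟩ := hj
          rw [Function.update_self]
          exact hX
        · rw [r4 j w' hj]
          exact hT j w' (Multiset.mem_cons_of_mem hj))
      rw [r1, r3] at this
      exact this
  · left
    intro F' hF'
    rcases hCAS V c n L F' hcok hF' with ⟨L', hm, -⟩ | ⟨k, w, G, u, v, Ψ, rfl, -⟩ | ⟨k, w, G, FI', rfl, -⟩ |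
      ⟨i, w, G, FS', rfl, hs, -⟩
    · exact h1 ⟨L', hm⟩
    · exact hL.noR _ (Multiset.mem_cons_self _ _) k rfl
    · exact hL.noR _ (Multiset.mem_cons_self _ _) k rfl
    · have hi := Multiset.mem_cons_self (Tag.T i, w) G
      rcases ih i w hi (hnd' i w hi) with h | ⟨F'', hF'', hR⟩
      · exact h FS' hs
      · exact h2 ⟨i, w, F'', hi, hF'', hR⟩

/-- a good state with a rich face whose walk is longer than the triangle -/
lemma long_case (hLMR : T_LMR) (hLMP : T_LMP) (hFLO : T_FLO) (hNOD : T_NOD) (hSND : T_SND)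
    (hLOC : T_LOC) (hPAS : T_PAS) {n : ℕ} {r : List ℕ} {base : List (Tag × List ℕ)} (hS : (n, r, base) ∈ openList)
    (c : Ctx V) (hT : ∀ i w, (Tag.T i, w) ∈ toLF base → Reg (w.map c.f) (c.WS i) (c.FS i))
    (hC : Content (c.FL 0) (c.WL 0) (c.FI 0)) (hr : r ≠ [0, 1, 2])
    (hnd : ((↑[c.f 0, c.f 1, c.f 2] : Cycle V).toMultiset +
      (((inner n).map c.f : Multiset V) + vs c (toLF ((.R 0, r) :: base)))).Nodup) :
    ∃ F', LStep (real c (toLF ((.R 0, r) :: base))) F' ∧
      Reg ↑[c.f 0, c.f 1, c.f 2] (((inner n).map c.f : Multiset V) + vs c (toLF ((.R 0, r) :: base))) F' := by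
  obtain ⟨h3, hlab, htri⟩ := open_lab _ hS
  simp only at h3 hlab htri
  have hT' : ∀ i w, (Tag.T i, w) ∈ toLF ((.R 0, r) :: base) → Reg (w.map c.f) (c.WS i) (c.FS i) := by
    intro i w hi
    apply hT i w
    simpa [toLF] using hi
  have hcok : COK c n (toLF ((.R 0, r) :: base)) := cok_of hNOD hLOC h3 hnd hlab htri hT' (by
    intro k w hk
    obtain rfl := open_R hS hk
    exact content_loc hFLO hLOC hC)
  obtain ⟨L', hm, hLR⟩ := hPAS.1 _ hS hr
  simp only at hm hLR
  obtain ⟨hs, -, hvs⟩ := hLMR V c n _ L' hcok hm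
  obtain ⟨-, -, -, hTT, -⟩ := hLMP _ L' hm
  refine ⟨_, hs, ?_⟩
  have := hSND V _ _ _ hLR c (fun i w hi => hT' i w ((hTT i w).1 hi)) (by
    intro k w hk
    obtain ⟨w', hk'⟩ := lmove_R hm hk
    obtain rfl := open_R hS hk'
    exact hC)
  rw [hvs] at this
  exact this

lemma open_short {n : ℕ} {base : List (Tag × List ℕ)} (hS : (n, [0, 1, 2], base) ∈ openList) :
    n = 3 ∧ base = [] := by
  simpa [openList] using hS

/-- regions consisting of one filled triangle -/
lemma stuck_tri (a b c : V) : Stuck ({{(↑[a, b, c] : Cycle V)}} : Multiset (Region V)) := by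
  rintro F' ⟨u, v, huv, hadj, Φ, Ψ, G, h1, -, hm⟩
  have hG : G = 0 ∧ Φ = {(↑[a, b, c] : Cycle V)} := by
    have := h1.symm
    rw [← Multiset.cons_zero, Multiset.cons_eq_cons] at this
    rcases this with ⟨rfl, rfl⟩ | ⟨_, cs, _, h⟩
    · exact ⟨rfl, rfl⟩
    · exact absurd h (Multiset.zero_ne_cons)
  obtain ⟨rfl, rfl⟩ := hG
  have hcor : InR {({(↑[a, b, c] : Cycle V)} : Region V)} u ∧ InR {({(↑[a, b, c] : Cycle V)} : Region V)} v := by
    rw [← hm.corner, ← hm.corner]
    have := (hm.adj u v).2 (Or.inr (Or.inl ⟨rfl, rfl⟩))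
    exact ⟨this.left, this.right⟩
  apply hadj
  rw [adj_sing]
  refine ⟨_, Multiset.mem_singleton_self _, ?_⟩
  rw [isDart_coe, isDart_coe]
  simp only [inR_sing, Multiset.mem_singleton, exists_eq_left, Cycle.mem_coe_iff, List.mem_cons,
    List.not_mem_nil, or_false] at hcor
  simp only [cprs_cons_cons, List.cons_append, List.nil_append, prs_cons_cons, prs_single, List.mem_cons,
    Prod.mk.injEq, List.not_mem_nil, or_false]
  obtain ⟨rfl | rfl | rfl, rfl | rfl | rfl⟩ := hcor <;> simp at huv ⊢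

/-- joining the triangle with a float -/
lemma join_step {a b c x : V} {m : List V} {fl : Region V} {W : Multiset V} {FI : Multiset (Region V)}
    (hnd : (a ::ₘ b ::ₘ c ::ₘ W).Nodup) (h1 : ∀ u ∈ (↑(x :: m) : Cycle V) ::ₘ fl, ∀ v ∈ u, v ∈ W)
    (h2 : ∀ v, InR FI v → v ∈ W) :
    LStep (((↑[a, b, c] : Cycle V) ::ₘ (↑(x :: m) : Cycle V) ::ₘ fl) ::ₘ FI)
      (((↑(joinWalk a [b, c] x m) : Cycle V) ::ₘ fl) ::ₘ FI) := by
  have hxW : x ∈ W := h1 _ (Multiset.mem_cons_self _ _) x (by simp)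
  have haW : a ∉ W := by
    intro h
    rw [Multiset.nodup_cons] at hnd
    exact hnd.1 (by simp [h])
  have hne : ∀ y ∈ [a, b, c], y ≠ x := by
    rintro y hy rfl
    simp only [Multiset.nodup_cons, Multiset.mem_cons, not_or] at hnd
    simp only [List.mem_cons, List.not_mem_nil, or_false] at hy
    rcases hy with rfl | rfl | rfl <;> tauto
  refine ⟨a, x, hne a (by simp), ?_, _, {(↑(joinWalk a [b, c] x m) : Cycle V) ::ₘ fl}, FI, rfl, ?_,
    RegionMove.join [b, c] m fl⟩
  · rintro hA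
    rw [adj_cons] at hA
    rcases hA with hA | hA
    · rw [adj_sing] at hA
      obtain ⟨w, hw, hd⟩ := hA
      have hm : a ∈ w ∧ x ∈ w := by
        rcases hd with hd | hd
        · exact ⟨hd.mem_left, hd.mem_right⟩
        · exact ⟨hd.mem_right, hd.mem_left⟩
      rcases Multiset.mem_cons.1 hw with rfl | hw
      · exact hne x (by simpa using hm.2) rfl
      · exact haW (h1 w hw a hm.1)
    · exact haW (h2 a hA.left)
  · simp

/-- the triangle with an empty inside apart from floats -/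
lemma shortA (hFLO : T_FLO) (hSND : T_SND) (hPAS : T_PAS) (a b c : V) {fl : Region V} {W : Multiset V}
    (hfl : Floats fl W) (hnd : (a ::ₘ b ::ₘ c ::ₘ W).Nodup) :
    Stuck ({(↑[a, b, c] : Cycle V) ::ₘ fl} : Multiset (Region V)) ∨
      ∃ F', LStep ({(↑[a, b, c] : Cycle V) ::ₘ fl} : Multiset (Region V)) F' ∧ Reg ↑[a, b, c] W F' := by
  obtain ⟨-, hmem, hk1, hk2, hin, h0⟩ := hFLO V fl W hfl
  by_cases hz : fl = 0
  · subst hz
    left
    exact stuck_tri a b c
  right
  obtain ⟨X, hX⟩ := Multiset.exists_mem_of_ne_zero hz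
  obtain ⟨fl', rfl⟩ := Multiset.exists_cons_of_mem hX
  rcases hmem X hX with ⟨v, rfl⟩ | ⟨v, w, rfl⟩
  · obtain ⟨W', rfl, hfl'⟩ := hk1 v fl' rfl
    have hs := join_step (FI := 0) hnd hin (fun v hv => absurd hv (inR_zero v))
    refine ⟨_, hs, ?_⟩
    let g : ℕ → V := fun i => if i = 0 then a else if i = 1 then b else if i = 2 then c else v
    let c' : Ctx V := ⟨g, fun _ => fl', fun _ => W', fun _ => 0, fun _ => 0, fun _ => 0⟩
    have := hSND V _ _ _ hPAS.2.1 c' (by
      intro i w hi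
      simp at hi) (by
      intro k w hk
      exact Or.inl ⟨hfl', rfl⟩)
    have e1 : (↑[0, 1, 2] : Cycle ℕ).map c'.f = (↑[a, b, c] : Cycle V) := rfl
    have e2 : ((↑(inner 4) : Multiset ℕ).map c'.f + vs c' {(.R 0, (↑(joinWalk 0 [1, 2] 3 []) : Cycle ℕ))}) =
        v ::ₘ W' := by
      have : (↑(inner 4) : Multiset ℕ).map c'.f = {v} := rfl
      rw [this, vs, Multiset.singleton_bind]
      rfl
    have e3 : real c' {(.R 0, (↑(joinWalk 0 [1, 2] 3 []) : Cycle ℕ))} =
        {(↑(joinWalk a [b, c] v []) : Cycle V) ::ₘ fl'} := by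
      rw [real, Multiset.singleton_bind]
      rfl
    rw [e1, e2, e3] at this
    exact this
  · obtain ⟨W', rfl, hfl'⟩ := hk2 v w fl' rfl
    have hs := join_step (FI := 0) hnd hin (fun v hv => absurd hv (inR_zero v))
    refine ⟨_, hs, ?_⟩
    let g : ℕ → V := fun i => if i = 0 then a else if i = 1 then b else if i = 2 then c else
      if i = 3 then v else w
    let c' : Ctx V := ⟨g, fun _ => fl', fun _ => W', fun _ => 0, fun _ => 0, fun _ => 0⟩
    have := hSND V _ _ _ hPAS.2.2.1 c' (by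
      intro i w hi
      simp at hi) (by
      intro k w hk
      exact Or.inl ⟨hfl', rfl⟩)
    have e1 : (↑[0, 1, 2] : Cycle ℕ).map c'.f = (↑[a, b, c] : Cycle V) := rfl
    have e2 : ((↑(inner 5) : Multiset ℕ).map c'.f + vs c' {(.R 0, (↑(joinWalk 0 [1, 2] 3 [4]) : Cycle ℕ))}) =
        v ::ₘ w ::ₘ W' := by
      have : (↑(inner 5) : Multiset ℕ).map c'.f = v ::ₘ {w} := rfl
      rw [this, vs, Multiset.singleton_bind, Multiset.cons_add, Multiset.singleton_add]
      rfl
    have e3 : real c' {(.R 0, (↑(joinWalk 0 [1, 2] 3 [4]) : Cycle ℕ))} =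
        {(↑(joinWalk a [b, c] v [w]) : Cycle V) ::ₘ fl'} := by
      rw [real, Multiset.singleton_bind]
      rfl
    rw [e1, e2, e3] at this
    exact this

/-- the triangle with one free triangle in its inside -/
lemma shortB (hLOC : T_LOC) (hSND : T_SND) (hPAS : T_PAS) (a b c x y z : V) {W' : Multiset V}
    {FI : Multiset (Region V)} (hB : Reg ↑[z, y, x] W' FI)
    (hnd : (a ::ₘ b ::ₘ c ::ₘ x ::ₘ y ::ₘ z ::ₘ W').Nodup) :
      ∃ F', LStep (((↑[a, b, c] : Cycle V) ::ₘ {(↑[x, y, z] : Cycle V)}) ::ₘ FI) F' ∧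
        Reg ↑[a, b, c] (x ::ₘ y ::ₘ z ::ₘ W') F' := by
  have hs := join_step (x := x) (m := [y, z]) (fl := 0) (FI := FI) hnd (by
    intro u hu v hv
    rw [Multiset.cons_zero, Multiset.mem_singleton] at hu
    subst hu
    simp only [Cycle.mem_coe_iff, List.mem_cons, List.not_mem_nil, or_false] at hv
    simp only [Multiset.mem_cons]
    tauto) (by
    intro v hv
    have := (hLOC V _ _ _ hB).1.1 v hv
    simp only [Cycle.mem_coe_iff, List.mem_cons, List.not_mem_nil, or_false] at this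
    simp only [Multiset.mem_cons]
    tauto)
  refine ⟨_, hs, ?_⟩
  let g : ℕ → V := fun i => if i = 0 then a else if i = 1 then b else if i = 2 then c else
    if i = 3 then x else if i = 4 then y else z
  let c' : Ctx V := ⟨g, fun _ => 0, fun _ => 0, fun _ => 0, fun _ => FI, fun _ => W'⟩
  have := hSND V _ _ _ hPAS.2.2.2 c' (by
    intro i w hi
    simp only [Multiset.insert_eq_cons, Multiset.mem_cons, Multiset.mem_singleton, Prod.mk.injEq,
      reduceCtorEq, false_and, false_or] at hi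
    obtain ⟨-, rfl⟩ := hi
    exact hB) (by
    intro k w hk
    simp only [Multiset.insert_eq_cons, Multiset.mem_cons, Multiset.mem_singleton, Prod.mk.injEq,
      reduceCtorEq, false_and, false_or] at hk)
  have e1 : (↑[0, 1, 2] : Cycle ℕ).map c'.f = (↑[a, b, c] : Cycle V) := rfl
  have e2 : ((↑(inner 6) : Multiset ℕ).map c'.f + vs c' {(.E, (↑(joinWalk 0 [1, 2] 3 [4, 5]) : Cycle ℕ)),
      (.T 1, (↑[5, 4, 3] : Cycle ℕ))}) = x ::ₘ y ::ₘ z ::ₘ W' := by
    have h1 : (↑(inner 6) : Multiset ℕ).map c'.f = x ::ₘ y ::ₘ {z} := rfl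
    have h2 : vs c' {(.E, (↑(joinWalk 0 [1, 2] 3 [4, 5]) : Cycle ℕ)), (.T 1, (↑[5, 4, 3] : Cycle ℕ))} = W' := by
      rw [vs, Multiset.insert_eq_cons, Multiset.cons_bind, Multiset.singleton_bind]
      show (0 : Multiset V) + W' = W'
      exact zero_add _
    rw [h1, h2]
    simp
  have e3 : real c' {(.E, (↑(joinWalk 0 [1, 2] 3 [4, 5]) : Cycle ℕ)), (.T 1, (↑[5, 4, 3] : Cycle ℕ))} =
      ((↑(joinWalk a [b, c] x [y, z]) : Cycle V) ::ₘ 0) ::ₘ FI := by
    rw [real, Multiset.insert_eq_cons, Multiset.cons_bind, Multiset.singleton_bind]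
    rfl
  rw [e1, e2, e3] at this
  exact this

lemma toMultiset_tri (a b c : V) (W : Multiset V) :
    (↑[a, b, c] : Cycle V).toMultiset + W = a ::ₘ b ::ₘ c ::ₘ W := by
  rw [Cycle.coe_toMultiset]
  show (a ::ₘ b ::ₘ c ::ₘ (0 : Multiset V)) + W = _
  simp

theorem pf_EXT' (hADJ : T_ADJ) (hLMR : T_LMR) (hLMP : T_LMP) (hCAS : T_CAS) (hFLO : T_FLO) (hREP : T_REP)
    (hNOD : T_NOD) (hSND : T_SND) (hLOC : T_LOC) (hPAS : T_PAS) : T_EXT := by
  intro V o W F hnd h
  revert hnd
  induction h with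
  | comp n L hL c hT ih =>
    intro hnd
    exact comp_case hADJ hLMR hLMP hCAS hREP hNOD hLOC hL c hT (fun i w hi h => ih i w hi h) hnd
  | openA n r base hS c hT hfl hFI ih =>
    intro hnd
    by_cases hr : r = [0, 1, 2]
    · subst hr
      obtain ⟨rfl, rfl⟩ := open_short hS
      have e1 : (((inner 3).map c.f : Multiset V) + vs c (toLF [(.R 0, [0, 1, 2])])) = c.WL 0 := by
        have : vs c (toLF [(.R 0, [0, 1, 2])]) = c.WL 0 := by
          rw [vs, toLF]
          show Multiset.bind {_} _ = _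
          rw [Multiset.singleton_bind]
          rfl
        rw [this]
        exact zero_add _
      have e2 : real c (toLF [(.R 0, [0, 1, 2])]) = {(↑[c.f 0, c.f 1, c.f 2] : Cycle V) ::ₘ c.FL 0} := by
        rw [real, toLF]
        show Multiset.bind {_} _ = _
        rw [Multiset.singleton_bind]
        show ((↑[c.f 0, c.f 1, c.f 2] : Cycle V) ::ₘ c.FL 0) ::ₘ c.FI 0 = _
        rw [hFI]
        rfl
      rw [e1, e2]
      rw [e1, toMultiset_tri] at hnd
      exact shortA hFLO hSND hPAS _ _ _ hfl hnd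
    · right
      exact long_case hLMR hLMP hFLO hNOD hSND hLOC hPAS hS c hT (Or.inl ⟨hfl, hFI⟩) hr hnd
  | openB n r base hS c hT x y z W' hFL hWL hB ih _ =>
    intro hnd
    right
    by_cases hr : r = [0, 1, 2]
    · subst hr
      obtain ⟨rfl, rfl⟩ := open_short hS
      have e1 : (((inner 3).map c.f : Multiset V) + vs c (toLF [(.R 0, [0, 1, 2])])) =
          x ::ₘ y ::ₘ z ::ₘ W' := by
        have : vs c (toLF [(.R 0, [0, 1, 2])]) = c.WL 0 := by
          rw [vs, toLF]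
          show Multiset.bind {_} _ = _
          rw [Multiset.singleton_bind]
          rfl
        rw [this, hWL]
        exact zero_add _
      have e2 : real c (toLF [(.R 0, [0, 1, 2])]) =
          ((↑[c.f 0, c.f 1, c.f 2] : Cycle V) ::ₘ {(↑[x, y, z] : Cycle V)}) ::ₘ c.FI 0 := by
        rw [real, toLF]
        show Multiset.bind {_} _ = _
        rw [Multiset.singleton_bind]
        show ((↑[c.f 0, c.f 1, c.f 2] : Cycle V) ::ₘ c.FL 0) ::ₘ c.FI 0 = _
        rw [hFL]
      rw [e1, e2]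
      rw [e1, toMultiset_tri] at hnd
      exact shortB hLOC hSND hPAS _ _ _ x y z hB hnd
    · exact long_case hLMR hLMP hFLO hNOD hSND hLOC hPAS hS c hT (Or.inr ⟨x, y, z, W', hFL, hWL, hB⟩) hr hnd

end Pool.Agent.H59.DG.EXT
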