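import Pool.Agent.H44.DG.Targets4

/-! SC: simple invariants of the drawings that occur in a play. -/

namespace Pool.Agent.H59.DG.SC

open Pool.Agent.H44.DG

variable {V : Type}

/-! ### Darts of the new walks -/

lemma coe_join (u v : V) (l m : List V) :
    (↑(cprs (joinWalk u l v m)) : Multiset (V × V)) =
      ↑(cprs (u :: l)) + ↑(cprs (v :: m)) + ({(u, v), (v, u)} : Multiset (V × V)) := by
  unfold joinWalk
  rw [cprs_cons_cons]
  rcases l with _ | ⟨a, l⟩ <;> rcases m with _ | ⟨b, m⟩
  · simp
    rfl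
  · have h : u :: v :: (b :: m ++ ((if (b :: m) = [] then [] else [v]) ++ (if ([] : List V) = [] then [] else [u])) ++ [u])
        = u :: ((v :: b :: m) ++ [v, u]) := by simp
    rw [h, cprs_cons_cons v b m, show v :: b :: (m ++ [v]) = (v :: b :: m) ++ [v] by simp]
    show (↑((u, v) :: prs ((v :: b :: m) ++ [v, u])) : Multiset (V × V)) = _
    rw [prs_snoc2]
    simp only [cprs_single, Multiset.coe_nil, Multiset.insert_eq_cons, ← Multiset.cons_coe, ← Multiset.coe_add,
      ← Multiset.singleton_add]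
    abel
  · have h : u :: v :: ([] ++ ((if ([] : List V) = [] then [] else [v]) ++ (if (a :: l) = [] then [] else u :: a :: l)) ++ [u])
        = u :: v :: (u :: a :: l ++ [u]) := by simp
    rw [h, cprs_cons_cons u a l, show u :: a :: (l ++ [u]) = u :: a :: l ++ [u] by simp]
    show (↑((u, v) :: (v, u) :: prs (u :: a :: l ++ [u])) : Multiset (V × V)) = _
    simp only [cprs_single, Multiset.coe_nil, Multiset.insert_eq_cons, ← Multiset.cons_coe,
      ← Multiset.singleton_add]
    abel
  · have h : u :: v :: (b :: m ++ ((if (b :: m) = [] then [] else [v]) ++ (if (a :: l) = [] then [] else u :: a :: l)) ++ [u])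
        = u :: ((v :: b :: m ++ [v]) ++ u :: (a :: l ++ [u])) := by simp
    rw [h, cprs_cons_cons v b m, show v :: b :: (m ++ [v]) = (v :: b :: m) ++ [v] by simp,
      cprs_cons_cons u a l, show u :: a :: (l ++ [u]) = u :: (a :: l ++ [u]) by simp]
    show (↑((u, v) :: prs ((v :: b :: m ++ [v]) ++ u :: (a :: l ++ [u]))) : Multiset (V × V)) = _
    rw [prs_append, show (v :: b :: m ++ [v]) ++ [u] = (v :: b :: m) ++ [v, u] by simp, prs_snoc2]
    simp only [Multiset.coe_nil, Multiset.insert_eq_cons, ← Multiset.cons_coe, ← Multiset.coe_add,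
      ← Multiset.singleton_add]
    abel

lemma coe_split (u v : V) (l m : List V) :
    (↑(cprs (u :: (l ++ [v]))) : Multiset (V × V)) + ↑(cprs (v :: (m ++ [u]))) =
      ↑(cprs (u :: (l ++ v :: m))) + ({(u, v), (v, u)} : Multiset (V × V)) := by
  have e1 : cprs (u :: (l ++ [v])) = prs (u :: (l ++ [v])) ++ [(v, u)] := by
    have : ∀ (t : List V), cprs (u :: (t ++ [v])) = prs (u :: (t ++ [v]) ++ [u]) := by
      intro t; cases t <;> simp [cprs_cons_cons]
    rw [this, show u :: (l ++ [v]) ++ [u] = (u :: l) ++ v :: [u] by simp, prs_append]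
    simp
  have e2 : cprs (v :: (m ++ [u])) = prs (v :: (m ++ [u])) ++ [(u, v)] := by
    have : ∀ (t : List V), cprs (v :: (t ++ [u])) = prs (v :: (t ++ [u]) ++ [v]) := by
      intro t; cases t <;> simp [cprs_cons_cons]
    rw [this, show v :: (m ++ [u]) ++ [v] = (v :: m) ++ u :: [v] by simp, prs_append]
    simp
  have e3 : cprs (u :: (l ++ v :: m)) = prs (u :: (l ++ [v])) ++ prs (v :: (m ++ [u])) := by
    have : ∀ (t : List V), cprs (u :: (t ++ v :: m)) = prs (u :: (t ++ v :: m) ++ [u]) := by
      intro t; cases t <;> simp [cprs_cons_cons]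
    rw [this, show u :: (l ++ v :: m) ++ [u] = (u :: l) ++ v :: (m ++ [u]) by simp, prs_append]
    simp
  rw [e1, e2, e3]
  simp only [← Multiset.coe_add, Multiset.coe_singleton, Multiset.insert_eq_cons, ← Multiset.singleton_add]
  abel

lemma alld_cons (Φ : Region V) (G : Multiset (Region V)) : alld (Φ ::ₘ G) = rdts Φ + alld G := by
  simp [alld]

lemma alld_add (F G : Multiset (Region V)) : alld (F + G) = alld F + alld G := by
  simp [alld]

lemma rdts_cons (w : Cycle V) (R : Region V) : rdts (w ::ₘ R) = dts w + rdts R := by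
  simp [rdts]

lemma rdts_add (R R' : Region V) : rdts (R + R') = rdts R + rdts R' := by
  simp [rdts]

lemma dts_coe (L : List V) : dts (↑L : Cycle V) = ↑(cprs L) := rfl

lemma move_alld {u v : V} {Φ : Region V} {Ψ : Multiset (Region V)} (h : RegionMove u v Φ Ψ) :
    alld Ψ = rdts Φ + ({(u, v), (v, u)} : Multiset (V × V)) := by
  cases h with
  | join l m R =>
    rw [← Multiset.cons_zero, alld_cons, rdts_cons, rdts_cons, rdts_cons, dts_coe, dts_coe, dts_coe, coe_join]
    simp only [alld, Multiset.zero_bind]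
    abel
  | split l m R₁ R₂ =>
    rw [Multiset.insert_eq_cons, alld_cons, ← Multiset.cons_zero (a := (↑(v :: (m ++ [u])) : Cycle V) ::ₘ R₂),
      alld_cons, rdts_cons, rdts_cons, rdts_cons, dts_coe, dts_coe, dts_coe, rdts_add]
    have := coe_split u v l m
    simp only [alld, Multiset.zero_bind]
    calc _ = (↑(cprs (u :: (l ++ [v]))) + ↑(cprs (v :: (m ++ [u])))) + (rdts R₁ + rdts R₂) := by abel
      _ = _ := by rw [this]; abel

lemma mem_dts {w : Cycle V} {x y : V} : (x, y) ∈ dts w ↔ IsDart w x y := by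
  induction w using Quotient.inductionOn with
  | _ L =>
    show (x, y) ∈ (↑(cprs L) : Multiset (V × V)) ↔ IsDart (↑L : Cycle V) x y
    rw [isDart_coe, Multiset.mem_coe]

lemma mem_alld {F : Multiset (Region V)} {x y : V} :
    (x, y) ∈ alld F ↔ ∃ Φ ∈ F, ∃ w ∈ Φ, IsDart w x y := by
  unfold alld rdts
  simp only [Multiset.mem_bind, mem_dts]

/-- all walks -/
def walks (F : Multiset (Region V)) : Multiset (Cycle V) := F.bind id

/-- an isolated point occurs only once -/
def IsoW (W : Multiset (Cycle V)) : Prop :=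
  ∀ (v : V) (W' : Multiset (Cycle V)), W = (↑[v] : Cycle V) ::ₘ W' → ∀ w ∈ W', v ∉ w

lemma coe_ne_single {L : List V} (h : L.length ≠ 1) (a : V) : (↑L : Cycle V) ≠ ↑[a] := by
  intro he
  have := (Cycle.coe_eq_coe.1 he).perm.length_eq
  exact h (by simpa using this)

lemma joinWalk_length (u v : V) (l m : List V) : (joinWalk u l v m).length ≠ 1 := by
  unfold joinWalk
  simp

lemma iso_join {u v : V} {l m : List V} {X : Multiset (Cycle V)}
    (h : IsoW ((↑(u :: l) : Cycle V) ::ₘ (↑(v :: m) : Cycle V) ::ₘ X)) :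
    IsoW ((↑(joinWalk u l v m) : Cycle V) ::ₘ X) := by
  intro a W' hW w hw
  rcases Multiset.cons_eq_cons.1 hW with ⟨h1, -⟩ | ⟨-, Y, hX, hW'⟩
  · exact absurd h1 (coe_ne_single (joinWalk_length u v l m) a)
  · subst hX
    have h2 := h a ((↑(u :: l) : Cycle V) ::ₘ (↑(v :: m) : Cycle V) ::ₘ Y) (by
      rw [Multiset.cons_swap (↑(v :: m) : Cycle V), Multiset.cons_swap (↑(u :: l) : Cycle V)])
    rw [hW', Multiset.mem_cons] at hw
    rcases hw with rfl | hw
    · rw [Cycle.mem_coe_iff, joinWalk_mem]
      rintro (h3 | h3)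
      · exact h2 _ (Multiset.mem_cons_self _ _) (by simpa using h3)
      · exact h2 _ (Multiset.mem_cons_of_mem (Multiset.mem_cons_self _ _)) (by simpa using h3)
    · exact h2 w (Multiset.mem_cons_of_mem (Multiset.mem_cons_of_mem hw))

lemma iso_split {u v : V} {l m : List V} {X : Multiset (Cycle V)}
    (h : IsoW ((↑(u :: (l ++ v :: m)) : Cycle V) ::ₘ X)) :
    IsoW ((↑(u :: (l ++ [v])) : Cycle V) ::ₘ (↑(v :: (m ++ [u])) : Cycle V) ::ₘ X) := by
  intro a W' hW w hw
  rcases Multiset.cons_eq_cons.1 hW with ⟨h1, -⟩ | ⟨-, Y, hX, hW'⟩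
  · exact absurd h1 (coe_ne_single (by simp) a)
  · rcases Multiset.cons_eq_cons.1 hX with ⟨h1, -⟩ | ⟨-, Z, hZ, hY⟩
    · exact absurd h1 (coe_ne_single (by simp) a)
    · subst hZ hY hW'
      have h2 := h a ((↑(u :: (l ++ v :: m)) : Cycle V) ::ₘ Z) (Multiset.cons_swap _ _ _)
      have h3 := h2 _ (Multiset.mem_cons_self _ _)
      simp only [Cycle.mem_coe_iff, List.mem_cons, List.mem_append, not_or] at h3
      rw [Multiset.mem_cons, Multiset.mem_cons] at hw
      rcases hw with rfl | rfl | hw
      · simp only [Cycle.mem_coe_iff, List.mem_cons, List.mem_append, List.not_mem_nil, or_false]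
        tauto
      · simp only [Cycle.mem_coe_iff, List.mem_cons, List.mem_append, List.not_mem_nil, or_false]
        tauto
      · exact h2 w (Multiset.mem_cons_of_mem hw)

lemma iso_move {u v : V} {Φ : Region V} {Ψ F : Multiset (Region V)} (h : RegionMove u v Φ Ψ)
    (hI : IsoW (walks (Φ ::ₘ F))) : IsoW (walks (Ψ + F)) := by
  unfold walks at hI ⊢
  cases h with
  | join l m R =>
    simp only [Multiset.cons_bind, id, Multiset.add_bind, Multiset.singleton_bind, Multiset.cons_add] at hI ⊢
    exact iso_join hI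
  | split l m R₁ R₂ =>
    simp only [Multiset.cons_bind, id, Multiset.add_bind, Multiset.singleton_bind, Multiset.cons_add,
      Multiset.insert_eq_cons] at hI ⊢
    have h1 := iso_split hI
    have h2 : R₁ + (↑(v :: (m ++ [u])) : Cycle V) ::ₘ R₂ + F.bind (fun a => a) =
        (↑(v :: (m ++ [u])) : Cycle V) ::ₘ (R₁ + R₂ + F.bind (fun a => a)) := by
      simp only [← Multiset.singleton_add]
      abel
    rw [h2]
    exact h1

/-! ### The invariant -/

/-- the whole invariant -/
def Inv {n : ℕ} (D : Drawing (Fin n)) : Prop :=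
  EInv D ∧ (∀ Φ ∈ D.regions, ∀ w ∈ Φ, w ≠ Cycle.nil) ∧ (n ≠ 0 → ∀ Φ ∈ D.regions, Φ ≠ 0) ∧
  (alld D.regions).Nodup ∧ (∀ x, (x, x) ∉ alld D.regions) ∧ D.edges.Finite ∧
  2 * D.edges.ncard = Multiset.card (alld D.regions) ∧
  D.edges.ncard + 2 + (D.regions.map Multiset.card).sum = 2 * Multiset.card D.regions + n ∧
  (∀ g : Fin n → Bool,
    (∀ Φ ∈ D.regions, ∀ w₁ ∈ Φ, ∀ w₂ ∈ Φ, ∀ x ∈ w₁, ∀ y ∈ w₂, g x = g y) → ∀ x y, g x = g y) ∧
  IsoW (walks D.regions)

lemma alld_start (n : ℕ) : alld (start n).regions = 0 := by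
  rw [Multiset.eq_zero_iff_forall_notMem]
  rintro ⟨x, y⟩ h
  obtain ⟨Φ, hΦ, w, hw, hd⟩ := mem_alld.1 h
  simp only [start, Multiset.mem_singleton] at hΦ
  subst hΦ
  obtain ⟨v, -, rfl⟩ := Multiset.mem_map.1 hw
  rw [isDart_coe] at hd
  simp at hd

lemma inv_start (n : ℕ) : Inv (start n) := by
  have h0 := alld_start n
  refine ⟨?_, ?_, ?_, ?_, ?_, ?_, ?_, ?_, ?_, ?_⟩
  · intro u v _
    constructor
    · intro h
      simp [start] at h
    · rintro ⟨Φ, hΦ, w, hw, hd | hd⟩
      · have := mem_alld.2 ⟨Φ, hΦ, w, hw, hd⟩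
        rw [h0] at this
        simp at this
      · have := mem_alld.2 ⟨Φ, hΦ, w, hw, hd⟩
        rw [h0] at this
        simp at this
  · intro Φ hΦ w hw
    simp only [start, Multiset.mem_singleton] at hΦ
    subst hΦ
    obtain ⟨v, -, rfl⟩ := Multiset.mem_map.1 hw
    simp
  · intro hn Φ hΦ h
    simp only [start, Multiset.mem_singleton] at hΦ
    subst hΦ
    have := congrArg Multiset.card h
    simp at this
    exact hn this
  · rw [h0]
    exact Multiset.nodup_zero
  · rw [h0]
    simp
  · simp [start]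
  · rw [h0]
    simp [start]
  · simp [start]
  · intro g hg x y
    exact hg ((Finset.univ : Finset (Fin n)).val.map fun v => (↑[v] : Cycle (Fin n)))
      (Multiset.mem_singleton_self _) (↑[x] : Cycle (Fin n))
      (Multiset.mem_map.2 ⟨x, Finset.mem_univ x, rfl⟩) (↑[y] : Cycle (Fin n))
      (Multiset.mem_map.2 ⟨y, Finset.mem_univ y, rfl⟩) x (by simp) y (by simp)
  · intro v W' hW w hw hv
    have hnd : (walks (start n).regions).Nodup := by
      have : walks (start n).regions =
          (Finset.univ : Finset (Fin n)).val.map fun v => (↑[v] : Cycle (Fin n)) := by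
        simp [walks, start]
      rw [this]
      refine Multiset.Nodup.map ?_ Finset.univ.nodup
      intro a b hab
      have := (Cycle.coe_eq_coe.1 hab).perm
      simpa using this
    have hw2 : w ∈ walks (start n).regions := by
      rw [hW]
      exact Multiset.mem_cons_of_mem hw
    have hw3 : w ∈ (Finset.univ : Finset (Fin n)).val.map fun v => (↑[v] : Cycle (Fin n)) := by
      simpa [walks, start] using hw2
    obtain ⟨a, -, rfl⟩ := Multiset.mem_map.1 hw3
    simp only [Cycle.mem_coe_iff, List.mem_cons, List.not_mem_nil, or_false] at hv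
    subst hv
    rw [hW] at hnd
    exact (Multiset.nodup_cons.1 hnd).1 hw

lemma inv_draw {n : ℕ} {D D' : Drawing (Fin n)} (hI : Inv D) (h : Draw D D') : Inv D' := by
  obtain ⟨h1, h2, h3, h4, h5, h6, h7, h8, h9, h10⟩ := hI
  obtain ⟨u, v, huv, hne, hed, Φ, Ψ, F, hF, hF', hm⟩ := h
  have hal : alld D'.regions = alld D.regions + ({(u, v), (v, u)} : Multiset (Fin n × Fin n)) := by
    rw [hF, hF', alld_add, alld_cons, move_alld hm]
    abel
  have hnadj : ¬ Adj D.regions u v := fun h => hne ((h1 u v huv).2 h)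
  have hn1 : (u, v) ∉ alld D.regions := by
    intro h
    obtain ⟨Φ', hΦ', w, hw, hd⟩ := mem_alld.1 h
    exact hnadj ⟨Φ', hΦ', w, hw, Or.inl hd⟩
  have hn2 : (v, u) ∉ alld D.regions := by
    intro h
    obtain ⟨Φ', hΦ', w, hw, hd⟩ := mem_alld.1 h
    exact hnadj ⟨Φ', hΦ', w, hw, Or.inr hd⟩
  have hnc : D'.edges.ncard = D.edges.ncard + 1 := by
    rw [hed, Set.ncard_insert_of_notMem hne h6]
  refine ⟨?_, ?_, ?_, ?_, ?_, ?_, ?_, ?_, ?_, ?_⟩
  · intro x y hxy
    have h1' := h1 x y hxy
    rw [hed, hF', adj_add, hm.adj, Set.mem_insert_iff, Sym2.eq_iff, h1', hF, adj_cons]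
    tauto
  · intro Φ' hΦ' w hw
    rw [hF', Multiset.mem_add] at hΦ'
    have hold : ∀ w ∈ Φ, w ≠ Cycle.nil := fun w hw => h2 Φ (by rw [hF]; exact Multiset.mem_cons_self _ _) w hw
    rcases hΦ' with hΦ' | hΦ'
    · have hnn : ∀ (a : Fin n) (L : List (Fin n)), (↑(a :: L) : Cycle (Fin n)) ≠ Cycle.nil := by
        intro a L h
        have := congrArg Cycle.length h
        simp at this
      cases hm with
      | join l m R =>
        rw [Multiset.mem_singleton] at hΦ'
        subst hΦ'
        rcases Multiset.mem_cons.1 hw with rfl | hw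
        · exact hnn _ _
        · exact hold w (Multiset.mem_cons_of_mem (Multiset.mem_cons_of_mem hw))
      | split l m R₁ R₂ =>
        simp only [Multiset.insert_eq_cons, Multiset.mem_cons, Multiset.mem_singleton] at hΦ'
        rcases hΦ' with rfl | rfl
        · rcases Multiset.mem_cons.1 hw with rfl | hw
          · exact hnn _ _
          · exact hold w (Multiset.mem_cons_of_mem (Multiset.mem_add.2 (Or.inl hw)))
        · rcases Multiset.mem_cons.1 hw with rfl | hw
          · exact hnn _ _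
          · exact hold w (Multiset.mem_cons_of_mem (Multiset.mem_add.2 (Or.inr hw)))
    · exact h2 Φ' (by rw [hF]; exact Multiset.mem_cons_of_mem hΦ') w hw
  · intro hn Φ' hΦ'
    rw [hF', Multiset.mem_add] at hΦ'
    rcases hΦ' with hΦ' | hΦ'
    · cases hm with
      | join l m R =>
        rw [Multiset.mem_singleton] at hΦ'
        subst hΦ'
        exact Multiset.cons_ne_zero
      | split l m R₁ R₂ =>
        simp only [Multiset.insert_eq_cons, Multiset.mem_cons, Multiset.mem_singleton] at hΦ'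
        rcases hΦ' with rfl | rfl
        · exact Multiset.cons_ne_zero
        · exact Multiset.cons_ne_zero
    · exact h3 hn Φ' (by rw [hF]; exact Multiset.mem_cons_of_mem hΦ')
  · rw [hal, Multiset.nodup_add]
    refine ⟨h4, ?_, ?_⟩
    · rw [Multiset.insert_eq_cons, Multiset.nodup_cons]
      refine ⟨?_, Multiset.nodup_singleton _⟩
      rw [Multiset.mem_singleton, Prod.mk.injEq]
      exact fun h => huv h.1
    · rw [Multiset.disjoint_right]
      intro x hx
      rw [Multiset.insert_eq_cons, Multiset.mem_cons, Multiset.mem_singleton] at hx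
      rcases hx with rfl | rfl
      · exact hn1
      · exact hn2
  · intro x hx
    rw [hal, Multiset.mem_add, Multiset.insert_eq_cons, Multiset.mem_cons, Multiset.mem_singleton, Prod.mk.injEq,
      Prod.mk.injEq] at hx
    rcases hx with hx | hx | hx
    · exact h5 x hx
    · exact huv (hx.1.symm.trans hx.2)
    · exact huv (hx.2.symm.trans hx.1)
  · rw [hed]
    exact h6.insert _
  · rw [hal, hnc, Multiset.card_add, ← h7]
    simp [Multiset.insert_eq_cons]
    omega
  · rw [hnc, hF']
    rw [hF] at h8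
    cases hm with
    | join l m R =>
      simp only [Multiset.map_cons, Multiset.sum_cons, Multiset.card_cons, Multiset.map_add, Multiset.map_singleton,
        Multiset.sum_add, Multiset.sum_singleton, Multiset.card_add, Multiset.card_singleton] at h8 ⊢
      omega
    | split l m R₁ R₂ =>
      simp only [Multiset.map_cons, Multiset.sum_cons, Multiset.card_cons, Multiset.map_add, Multiset.map_singleton,
        Multiset.sum_add, Multiset.sum_singleton, Multiset.card_add, Multiset.card_singleton,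
        Multiset.insert_eq_cons] at h8 ⊢
      omega
  · intro g hg
    apply h9
    intro Φ' hΦ'
    rw [hF, Multiset.mem_cons] at hΦ'
    rcases hΦ' with rfl | hΦ'
    · -- the region of the move
      have key : ∃ c : Bool, ∀ Φ'' ∈ Ψ, ∀ w ∈ Φ'', ∀ x ∈ w, g x = c := by
        have hg' : ∀ Φ'' ∈ Ψ, ∀ w₁ ∈ Φ'', ∀ w₂ ∈ Φ'', ∀ x ∈ w₁, ∀ y ∈ w₂, g x = g y := fun Φ'' h =>
          hg Φ'' (by rw [hF']; exact Multiset.mem_add.2 (Or.inl h))
        cases hm with
        | join l m R =>
          refine ⟨g u, ?_⟩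
          intro Φ'' hΦ'' w hw x hx
          have h11 := hg' _ (Multiset.mem_singleton_self _) w
          rw [Multiset.mem_singleton] at hΦ''
          subst hΦ''
          exact h11 hw _ (Multiset.mem_cons_self _ _) x hx u (by
            rw [Cycle.mem_coe_iff, joinWalk_mem]
            simp)
        | split l m R₁ R₂ =>
          refine ⟨g u, ?_⟩
          intro Φ'' hΦ'' w hw x hx
          have h12 := hg' Φ'' hΦ''
          simp only [Multiset.insert_eq_cons, Multiset.mem_cons, Multiset.mem_singleton] at hΦ''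
          rcases hΦ'' with rfl | rfl
          · exact h12 w hw _ (Multiset.mem_cons_self _ _) x hx u (by simp)
          · exact h12 w hw _ (Multiset.mem_cons_self _ _) x hx u (by simp)
      obtain ⟨c, hc⟩ := key
      have hcor : ∀ w ∈ Φ', ∀ x ∈ w, g x = c := by
        intro w hw x hx
        have : InR {Φ'} x := inR_sing.2 ⟨w, hw, hx⟩
        rw [← hm.corner] at this
        obtain ⟨Φ'', hΦ'', w', hw', hx'⟩ := this
        exact hc Φ'' hΦ'' w' hw' x hx'
      intro w₁ hw₁ w₂ hw₂ x hx y hy
      rw [hcor w₁ hw₁ x hx, hcor w₂ hw₂ y hy]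
    · exact hg Φ' (by rw [hF']; exact Multiset.mem_add.2 (Or.inr hΦ'))
  · rw [hF']
    rw [hF] at h10
    exact iso_move hm h10

theorem pf_SC : T_SC := by
  intro n D hR
  have hI : Inv D := by
    unfold Reach at hR
    induction hR with
    | refl => exact inv_start n
    | tail _ hd ih => exact inv_draw ih hd
  obtain ⟨h1, h2, h3, h4, h5, h6, h7, h8, h9, h10⟩ := hI
  refine ⟨h1, h2, h3, h4, h5, h6, h7, h8, h9, ?_⟩
  intro Φ G v R hD hΦ
  have hW : walks D.regions = (↑[v] : Cycle (Fin n)) ::ₘ (R + walks G) := by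
    rw [hD, hΦ]
    simp [walks]
  have h11 := h10 v _ hW
  constructor
  · rintro ⟨Φ', hΦ', w, hw, hv⟩
    exact h11 w (Multiset.mem_add.2 (Or.inr (Multiset.mem_bind.2 ⟨Φ', hΦ', hw⟩))) hv
  · rw [inR_sing]
    rintro ⟨w, hw, hv⟩
    exact h11 w (Multiset.mem_add.2 (Or.inl hw)) hv

end Pool.Agent.H59.DG.SC
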